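import Pool.Agent.U524.HS.Fin

set_option autoImplicit false
open MeasureTheory Filter Topology Set

namespace Pool.Agent.U524.HS

noncomputable def e0 : E3 := EuclideanSpace.single 0 1

lemma norm_e0 : ‖e0‖ = 1 := by
  unfold e0
  simp

lemma zero_notMem : (0 : E3) ∉ Metric.ball e0 1 := by
  rw [Metric.mem_ball, dist_comm, dist_zero_right, norm_e0]
  exact lt_irrefl _

lemma mem_ball_iff' (x : E3) : x ∈ Metric.ball e0 1 ↔ ‖x‖ ^ 2 < 2 * inner ℝ x e0 := by
  rw [Metric.mem_ball, dist_eq_norm]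
  have h1 : ‖x - e0‖ ^ 2 = ‖x‖ ^ 2 - 2 * inner ℝ x e0 + 1 := by
    rw [norm_sub_sq_real, norm_e0]; ring
  constructor
  · intro h
    have : ‖x - e0‖ ^ 2 < 1 := by
      have := norm_nonneg (x - e0)
      nlinarith
    linarith
  · intro h
    have h2 : ‖x - e0‖ ^ 2 < 1 := by linarith
    have := norm_nonneg (x - e0)
    nlinarith

lemma ball_star (t : ℝ) (ht : 1 ≤ t) (x : E3) (hx : t • x ∈ Metric.ball e0 1) :
    x ∈ Metric.ball e0 1 := by
  rw [mem_ball_iff'] at hx ⊢
  rw [norm_smul, inner_smul_left, Real.norm_eq_abs, abs_of_pos (by linarith : 0 < t)] at hx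
  simp only [conj_trivial] at hx
  have ht0 : 0 < t := by linarith
  have h1 : t * ‖x‖ ^ 2 < 2 * inner ℝ x e0 := by
    have h2 : t * (t * ‖x‖ ^ 2) < t * (2 * inner ℝ x e0) := by nlinarith
    exact lt_of_mul_lt_mul_left h2 ht0.le
  have h3 : ‖x‖ ^ 2 ≤ t * ‖x‖ ^ 2 := by nlinarith [sq_nonneg ‖x‖]
  linarith

noncomputable def rho (x : E3) : ℝ := ‖x - e0‖ ^ 2 - 1

lemma rho_smooth : ContDiff ℝ ((⊤ : ℕ∞) : WithTop ℕ∞) rho := by
  unfold rho
  exact ((contDiff_id.sub contDiff_const).norm_sq ℝ).sub contDiff_const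

lemma ball_eq : Metric.ball e0 1 = {x | rho x < 0} := by
  ext x
  simp only [Metric.mem_ball, mem_ofPred_eq, rho, dist_eq_norm]
  have := norm_nonneg (x - e0)
  constructor <;> intro h <;> nlinarith

lemma rho_fderiv (x : E3) (hx : x ∈ frontier (Metric.ball e0 1)) : fderiv ℝ rho x ≠ 0 := by
  rw [frontier_ball e0 one_ne_zero, mem_sphere_iff_norm] at hx
  intro h0
  have hd : HasFDerivAt rho (fderiv ℝ rho x) x :=
    (rho_smooth.differentiable (by norm_num) x).hasFDerivAt
  have h2 : HasDerivAt (fun r : ℝ => x + r • (x - e0)) (x - e0) 0 := by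
    simpa using ((hasDerivAt_id (0:ℝ)).smul_const (x - e0)).const_add x
  have h3 : HasFDerivAt rho (fderiv ℝ rho x) (x + (0:ℝ) • (x - e0)) := by simpa using hd
  have h4 := h3.comp_hasDerivAt (0:ℝ) h2
  have h5 : (rho ∘ fun r : ℝ => x + r • (x - e0)) = fun r : ℝ => (1 + r) ^ 2 - 1 := by
    funext r
    simp only [Function.comp, rho]
    have : x + r • (x - e0) - e0 = (1 + r) • (x - e0) := by module
    rw [this, norm_smul, hx, mul_one, Real.norm_eq_abs, sq_abs]
  rw [h5, h0] at h4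
  have h6 : HasDerivAt (fun r : ℝ => (1 + r) ^ 2 - 1) 2 0 := by
    have := (((hasDerivAt_id (0:ℝ)).const_add 1).pow 2).sub_const 1
    simpa using this
  have := h4.unique h6
  simp at this

lemma zero_mem_frontier : (0 : E3) ∈ frontier (Metric.ball e0 1) := by
  rw [frontier_ball e0 one_ne_zero, mem_sphere_iff_norm, zero_sub, norm_neg, norm_e0]

theorem no_sol (u : E3 → ℝ) (G : E3 → E3) (hu : MemLp u 2 volume) (hG : MemLp G 2 volume)
    (φ : ℕ → E3 → ℝ)
    (hφ : ∀ n, ContDiff ℝ ((⊤ : ℕ∞) : WithTop ℕ∞) (φ n) ∧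
              HasCompactSupport (φ n) ∧ tsupport (φ n) ⊆ Metric.ball e0 1)
    (lu : Tendsto (fun n => eLpNorm (fun x => φ n x - u x) 2 volume) atTop (𝓝 0))
    (lG : Tendsto (fun n => eLpNorm (fun x => gradient (φ n) x - G x) 2 volume) atTop (𝓝 0))
    (hpos : ∀ᵐ x ∂(volume : Measure E3), x ∈ Metric.ball e0 1 → 0 < u x)
    (hw : ∀ ψ : E3 → ℝ, ContDiff ℝ ((⊤ : ℕ∞) : WithTop ℕ∞) ψ → HasCompactSupport ψ →
      tsupport ψ ⊆ Metric.ball e0 1 →
        Integrable (fun x => inner ℝ (G x) (gradient ψ x)) volume ∧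
        Integrable (fun x => u x ^ (3:ℝ) * ψ x) volume ∧
        Integrable (fun x => u x ^ (2:ℝ) * ψ x / ‖x‖ ^ (3/2:ℝ)) volume ∧
        ∫ x, (inner ℝ (G x) (gradient ψ x) + u x ^ (3:ℝ) * ψ x
              - u x ^ (2:ℝ) * ψ x / ‖x‖ ^ (3/2:ℝ)) = 0) : False := by
  -- a.e. convergent subsequence
  have hmeas : ∀ n, AEStronglyMeasurable (φ n) volume :=
    fun n => (hφ n).1.continuous.aestronglyMeasurable
  have hin : TendstoInMeasure volume φ atTop u :=
    tendstoInMeasure_of_tendsto_eLpNorm (p := 2) (by norm_num) hmeas hu.1 lu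
  obtain ⟨ns, hns, hae⟩ := hin.exists_seq_tendsto_ae
  -- `u = 0` outside the ball
  have hout : ∀ᵐ x ∂(volume : Measure E3), x ∉ Metric.ball e0 1 → u x = 0 := by
    filter_upwards [hae] with x hx hxΩ
    have h0 : ∀ i, φ (ns i) x = 0 := fun i =>
      image_eq_zero_of_notMem_tsupport (fun hh => hxΩ ((hφ (ns i)).2.2 hh))
    simp only [h0] at hx
    exact tendsto_nhds_unique hx tendsto_const_nhds
  set v : E3 → ℝ := fun x => max (u x) 0 with hv
  have hvu : v =ᵐ[volume] u := by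
    filter_upwards [hout, hpos] with x h1 h2
    by_cases hx : x ∈ Metric.ball e0 1
    · exact max_eq_left (h2 hx).le
    · simp [hv, h1 hx]
  have hv0 : ∀ x, 0 ≤ v x := fun x => le_max_right _ _
  have hA : Approx (Metric.ball e0 1) v G (fun i => φ (ns i)) := by
    refine ⟨hu.ae_eq hvu.symm, hG, fun n => (hφ _).1, fun n => (hφ _).2.1, fun n => (hφ _).2.2,
      ?_, ?_, lG.comp hns.tendsto_atTop⟩
    · filter_upwards [hae, hvu] with x hx hx2
      rw [hx2]
      exact hx
    · have h1 : ∀ i, eLpNorm (fun x => φ (ns i) x - v x) 2 volume =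
          eLpNorm (fun x => φ (ns i) x - u x) 2 volume := by
        intro i
        apply eLpNorm_congr_ae
        filter_upwards [hvu] with x hx
        rw [hx]
      simp_rw [h1]
      exact lu.comp hns.tendsto_atTop
  have hW : Weak (Metric.ball e0 1) v G := by
    intro ψ h1 h2 h3
    obtain ⟨i1, i2, i3, he⟩ := hw ψ h1 h2 h3
    have i12 : Integrable (fun x => inner ℝ (G x) (gradient ψ x) + u x ^ (3:ℝ) * ψ x) volume :=
      i1.add i2
    rw [integral_sub i12 i3, integral_add i1 i2] at he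
    have e2 : ∫ x, u x ^ (3:ℝ) * ψ x = ∫ x, v x ^ 3 * ψ x := by
      apply integral_congr_ae
      filter_upwards [hvu] with x hx
      rw [hx, ← Real.rpow_natCast]
      norm_num
    have e3 : ∫ x, u x ^ (2:ℝ) * ψ x / ‖x‖ ^ (3/2:ℝ) =
        ∫ x, (v x ^ 2 / ‖x‖ ^ (1/2 : ℝ)) * (ψ x / ‖x‖) := by
      apply integral_congr_ae
      filter_upwards [hvu] with x hx
      rw [hx, ← Real.rpow_natCast, div_mul_div_comm, rp32]
      norm_num
    rw [e2, e3] at he
    linarith
  have hz := hA.zero zero_notMem ball_star hW hv0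
  have hnull : ∀ᵐ x ∂(volume : Measure E3), x ∉ Metric.ball e0 1 := by
    filter_upwards [hz, hvu, hpos] with x h1 h2 h3 hx
    have := h3 hx
    rw [← h2, h1] at this
    exact lt_irrefl _ this
  have hvol : volume (Metric.ball e0 1) = 0 := by
    have := measure_eq_zero_iff_ae_notMem.mpr hnull
    exact this
  exact (Metric.measure_ball_pos volume e0 one_pos).ne' hvol

end Pool.Agent.U524.HS
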