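import Mathlib

set_option autoImplicit false
open MeasureTheory Filter Topology Set

namespace Pool.Agent.U524.HS

abbrev E3 := EuclideanSpace ℝ (Fin 3)

lemma finrank_E3 : Module.finrank ℝ E3 = 3 := by simp

lemma map_dil {t : ℝ} (ht : 0 < t) :
    Measure.map (fun x : E3 => t • x) volume = ENNReal.ofReal ((t ^ 3)⁻¹) • (volume : Measure E3) := by
  have h := Measure.map_addHaar_smul (volume : Measure E3) (ne_of_gt ht)
  rw [finrank_E3, abs_of_pos (by positivity)] at h
  exact h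

lemma lintegral_dil (f : E3 → ENNReal) (hf : Measurable f) {t : ℝ} (ht : 0 < t) :
    ∫⁻ x, f (t • x) = ENNReal.ofReal ((t ^ 3)⁻¹) * ∫⁻ x, f x := by
  have h1 : ∫⁻ x, f x ∂(Measure.map (fun x : E3 => t • x) volume) = ∫⁻ x, f (t • x) :=
    lintegral_map hf (by fun_prop)
  rw [← h1, map_dil ht, lintegral_smul_measure, smul_eq_mul]

lemma integral_dil (f : E3 → ℝ) {t : ℝ} (ht : 0 < t) :
    ∫ x, f (t • x) = (t ^ 3)⁻¹ * ∫ x, f x := by
  have h := Measure.integral_comp_smul (volume : Measure E3) f t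
  rw [finrank_E3, abs_of_pos (by positivity), smul_eq_mul] at h
  exact h

lemma qmp_dil {t : ℝ} (ht : 0 < t) :
    Measure.QuasiMeasurePreserving (fun x : E3 => t • x) volume volume := by
  refine ⟨by fun_prop, ?_⟩
  rw [map_dil ht]
  exact Measure.smul_absolutelyContinuous

lemma eLpNorm_dil {F : Type*} [NormedAddCommGroup F] (f : E3 → F) (hf : AEStronglyMeasurable f volume)
    {t : ℝ} (ht : 0 < t) (p : ENNReal) (hp : p ≠ ⊤) :
    eLpNorm (fun x => f (t • x)) p volume =
      ENNReal.ofReal ((t ^ 3)⁻¹) ^ (1 / p).toReal * eLpNorm f p volume := by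
  have hm : AEStronglyMeasurable f (Measure.map (fun x : E3 => t • x) volume) := by
    rw [map_dil ht]
    exact hf.mono_ac Measure.smul_absolutelyContinuous
  have h1 := eLpNorm_map_measure (p := p) hm (by fun_prop : AEMeasurable (fun x : E3 => t • x) volume)
  rw [map_dil ht, eLpNorm_smul_measure_of_ne_top hp] at h1
  have h2 : (f ∘ fun x : E3 => t • x) = fun x => f (t • x) := rfl
  rw [h2] at h1
  rw [← h1, smul_eq_mul]

lemma eLpNorm_dil_le {F : Type*} [NormedAddCommGroup F] (f : E3 → F) (hf : AEStronglyMeasurable f volume)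
    {t : ℝ} (ht : 1 ≤ t) (p : ENNReal) (hp : p ≠ ⊤) :
    eLpNorm (fun x => f (t • x)) p volume ≤ eLpNorm f p volume := by
  rw [eLpNorm_dil f hf (by linarith) p hp]
  have h1 : ENNReal.ofReal ((t ^ 3)⁻¹) ≤ 1 := by
    rw [ENNReal.ofReal_le_one]
    exact inv_le_one_of_one_le₀ (one_le_pow₀ ht)
  calc ENNReal.ofReal ((t ^ 3)⁻¹) ^ (1 / p).toReal * eLpNorm f p volume
      ≤ 1 * eLpNorm f p volume := by
        gcongr
        exact ENNReal.rpow_le_one h1 ENNReal.toReal_nonneg
    _ = _ := one_mul _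

/-- Cauchy and Schwarz on an interval. -/
lemma sq_integral_le (g : ℝ → ℝ) (hg : Continuous g) {a b : ℝ} (hab : a ≤ b) :
    (∫ r in a..b, g r) ^ 2 ≤ (b - a) * ∫ r in a..b, g r ^ 2 := by
  rcases eq_or_lt_of_le hab with rfl | hlt
  · simp
  · set I := ∫ r in a..b, g r with hI
    have hba : 0 < b - a := by linarith
    set m := I / (b - a) with hm
    have h0 : 0 ≤ ∫ r in a..b, (g r - m) ^ 2 :=
      intervalIntegral.integral_nonneg hab (fun r _ => sq_nonneg _)
    have h1 : ∫ r in a..b, (g r - m) ^ 2 = (∫ r in a..b, g r ^ 2) - 2 * m * I + m ^ 2 * (b - a) := by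
      have : ∀ r, (g r - m) ^ 2 = (g r ^ 2 - 2 * m * g r) + m ^ 2 := fun r => by ring
      simp_rw [this]
      rw [intervalIntegral.integral_add, intervalIntegral.integral_sub,
        intervalIntegral.integral_const_mul, intervalIntegral.integral_const, smul_eq_mul]
      · ring
      · exact (hg.pow 2).intervalIntegrable _ _
      · exact (continuous_const.mul hg).intervalIntegrable _ _
      · exact ((hg.pow 2).sub (continuous_const.mul hg)).intervalIntegrable _ _
      · exact continuous_const.intervalIntegrable _ _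
    have hmI : m * (b - a) = I := by rw [hm]; field_simp
    nlinarith [h0, h1, hmI, sq_nonneg m]

lemma norm_gradient (f : E3 → ℝ) (x : E3) : ‖gradient f x‖ = ‖fderiv ℝ f x‖ := by
  unfold gradient
  exact LinearIsometryEquiv.norm_map _ _

lemma continuous_gradient {f : E3 → ℝ} (hf : ContDiff ℝ 1 f) : Continuous (gradient f) := by
  unfold gradient
  exact (LinearIsometryEquiv.continuous _).comp (hf.continuous_fderiv one_ne_zero)

lemma dil_pt (φ : E3 → ℝ) (hφ : ContDiff ℝ 1 φ) (x : E3) {t : ℝ} (ht : 1 ≤ t) :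
    (φ (t • x) - φ x) ^ 2 ≤ (t - 1) * ‖x‖ ^ 2 * ∫ r in (1:ℝ)..t, ‖gradient φ (r • x)‖ ^ 2 := by
  have hcg : Continuous (fun r : ℝ => ‖gradient φ (r • x)‖) :=
    ((continuous_gradient hφ).comp (by fun_prop)).norm
  have hd : ∀ r ∈ uIcc (1:ℝ) t, HasDerivAt (fun r : ℝ => φ (r • x)) (fderiv ℝ φ (r • x) x) r := by
    intro r _
    have h1 : HasFDerivAt φ (fderiv ℝ φ (r • x)) (r • x) :=
      (hφ.differentiable one_ne_zero (r • x)).hasFDerivAt
    have h2 : HasDerivAt (fun r : ℝ => r • x) x r := by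
      simpa using (hasDerivAt_id r).smul_const x
    exact h1.comp_hasDerivAt r h2
  have hcd : Continuous (fun r : ℝ => fderiv ℝ φ (r • x) x) := by
    have := (hφ.continuous_fderiv one_ne_zero)
    exact (this.comp (by fun_prop : Continuous (fun r : ℝ => r • x))).clm_apply continuous_const
  have h1 : ∫ r in (1:ℝ)..t, fderiv ℝ φ (r • x) x = φ (t • x) - φ x := by
    have := intervalIntegral.integral_eq_sub_of_hasDerivAt hd (hcd.intervalIntegrable _ _)
    simpa using this
  have h2 : |φ (t • x) - φ x| ≤ ‖x‖ * ∫ r in (1:ℝ)..t, ‖gradient φ (r • x)‖ := by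
    rw [← h1, ← intervalIntegral.integral_const_mul]
    refine (intervalIntegral.abs_integral_le_integral_abs ht).trans ?_
    refine intervalIntegral.integral_mono_on ht (hcd.abs.intervalIntegrable _ _)
      ((continuous_const.mul hcg).intervalIntegrable _ _) (fun r _ => ?_)
    rw [norm_gradient, mul_comm]
    exact (fderiv ℝ φ (r • x)).le_opNorm x
  have h3 := sq_integral_le _ hcg ht
  have h4 : (φ (t • x) - φ x) ^ 2 ≤ (‖x‖ * ∫ r in (1:ℝ)..t, ‖gradient φ (r • x)‖) ^ 2 := by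
    rw [← sq_abs]
    gcongr
  calc (φ (t • x) - φ x) ^ 2 ≤ (‖x‖ * ∫ r in (1:ℝ)..t, ‖gradient φ (r • x)‖) ^ 2 := h4
    _ = ‖x‖ ^ 2 * (∫ r in (1:ℝ)..t, ‖gradient φ (r • x)‖) ^ 2 := by ring
    _ ≤ ‖x‖ ^ 2 * ((t - 1) * ∫ r in (1:ℝ)..t, ‖gradient φ (r • x)‖ ^ 2) := by gcongr
    _ = _ := by ring

lemma lintegral_sq_dil (φ : E3 → ℝ) (hφ : ContDiff ℝ 1 φ) {t : ℝ} (ht : 1 ≤ t) :
    ∫⁻ x, ENNReal.ofReal (((φ (t • x) - φ x) / ‖x‖) ^ 2) ≤
      ENNReal.ofReal ((t - 1) ^ 2) * ∫⁻ x, ENNReal.ofReal (‖gradient φ x‖ ^ 2) := by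
  have hcg : Continuous (gradient φ) := continuous_gradient hφ
  have hc2 : Continuous (fun q : E3 × ℝ => ‖gradient φ (q.2 • q.1)‖ ^ 2) := by
    exact ((hcg.comp (by fun_prop)).norm).pow 2
  have h1 : ∀ x : E3, ENNReal.ofReal (((φ (t • x) - φ x) / ‖x‖) ^ 2) ≤
      ENNReal.ofReal (t - 1) * ∫⁻ r in Ioc (1:ℝ) t, ENNReal.ofReal (‖gradient φ (r • x)‖ ^ 2) := by
    intro x
    have hint : IntegrableOn (fun r : ℝ => ‖gradient φ (r • x)‖ ^ 2) (Ioc (1:ℝ) t) :=
      (((hcg.comp (by fun_prop : Continuous (fun r : ℝ => r • x))).norm.pow 2).intervalIntegrable 1 t).1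
    rw [← ofReal_integral_eq_lintegral_ofReal hint (Eventually.of_forall fun r => by positivity),
      ← ENNReal.ofReal_mul (by linarith)]
    apply ENNReal.ofReal_le_ofReal
    rw [← intervalIntegral.integral_of_le ht]
    by_cases hx : x = 0
    · subst hx
      simp only [norm_zero, div_zero]
      have : 0 ≤ ∫ r in (1:ℝ)..t, ‖gradient φ (r • (0:E3))‖ ^ 2 :=
        intervalIntegral.integral_nonneg ht (fun r _ => by positivity)
      have h0 : (0:ℝ) ^ 2 = 0 := by norm_num
      rw [h0]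
      exact mul_nonneg (by linarith) this
    · have hx' : 0 < ‖x‖ := norm_pos_iff.mpr hx
      rw [div_pow, div_le_iff₀ (by positivity)]
      have := dil_pt φ hφ x ht
      linarith
  calc ∫⁻ x, ENNReal.ofReal (((φ (t • x) - φ x) / ‖x‖) ^ 2)
      ≤ ∫⁻ x : E3, ENNReal.ofReal (t - 1) *
          ∫⁻ r in Ioc (1:ℝ) t, ENNReal.ofReal (‖gradient φ (r • x)‖ ^ 2) := lintegral_mono h1
    _ = ENNReal.ofReal (t - 1) * ∫⁻ x : E3,
          ∫⁻ r in Ioc (1:ℝ) t, ENNReal.ofReal (‖gradient φ (r • x)‖ ^ 2) := by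
        rw [lintegral_const_mul']
        exact ENNReal.ofReal_ne_top
    _ = ENNReal.ofReal (t - 1) * ∫⁻ r in Ioc (1:ℝ) t, ∫⁻ x : E3,
          ENNReal.ofReal (‖gradient φ (r • x)‖ ^ 2) := by
        rw [lintegral_lintegral_swap]
        exact (ENNReal.measurable_ofReal.comp hc2.measurable).aemeasurable
    _ ≤ ENNReal.ofReal (t - 1) * ∫⁻ r in Ioc (1:ℝ) t, ∫⁻ x : E3,
          ENNReal.ofReal (‖gradient φ x‖ ^ 2) := by
        gcongr 1
        apply setLIntegral_mono' measurableSet_Ioc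
        intro r hr
        have hm : Measurable (fun x : E3 => ENNReal.ofReal (‖gradient φ x‖ ^ 2)) :=
          ENNReal.measurable_ofReal.comp (hcg.norm.pow 2).measurable
        rw [lintegral_dil (fun x : E3 => ENNReal.ofReal (‖gradient φ x‖ ^ 2)) hm
          (by linarith [hr.1])]
        calc _ ≤ 1 * ∫⁻ x : E3, ENNReal.ofReal (‖gradient φ x‖ ^ 2) := by
              gcongr
              rw [ENNReal.ofReal_le_one]
              exact inv_le_one_of_one_le₀ (one_le_pow₀ hr.1.le)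
          _ = _ := one_mul _
    _ = ENNReal.ofReal ((t - 1) ^ 2) * ∫⁻ x, ENNReal.ofReal (‖gradient φ x‖ ^ 2) := by
        rw [lintegral_const, Measure.restrict_apply MeasurableSet.univ, univ_inter, Real.volume_Ioc,
          sq, ENNReal.ofReal_mul (by linarith)]
        ring

end Pool.Agent.U524.HS
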