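import Pool.Agent.U524.HS.Lim

set_option autoImplicit false
open MeasureTheory Filter Topology Set

namespace Pool.Agent.U524.HS

variable {Ω : Set E3} {u : E3 → ℝ} {G : E3 → E3} {φ : ℕ → E3 → ℝ}

lemma rp12 (x : E3) : (‖x‖ ^ (1/2 : ℝ)) ^ 2 = ‖x‖ := by
  rw [← Real.sqrt_eq_rpow, Real.sq_sqrt (norm_nonneg x)]

lemma rp32 (x : E3) : ‖x‖ ^ (1/2 : ℝ) * ‖x‖ = ‖x‖ ^ (3/2 : ℝ) := by
  by_cases hx : ‖x‖ = 0
  · rw [hx, mul_zero, Real.zero_rpow (by norm_num)]
  · have h0 : 0 < ‖x‖ := lt_of_le_of_ne (norm_nonneg x) (Ne.symm hx)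
    rw [show (3/2 : ℝ) = 1/2 + 1 by norm_num, Real.rpow_add_one (ne_of_gt h0)]

lemma Approx.mem3 (h : Approx Ω u G φ) : MemLp (fun x => u x ^ 3) 2 volume := by
  have hm : AEStronglyMeasurable (fun x => u x ^ 3) volume := h.hu.1.pow 3
  rw [memLp_two_iff_integrable_sq hm]
  have h6 : MemLp u ((6:ℕ):ENNReal) volume := by exact_mod_cast h.mem6
  refine (h6.integrable_norm_pow (by norm_num)).congr (Eventually.of_forall fun x => ?_)
  simp only [Real.norm_eq_abs]
  rw [← pow_mul, show 3 * 2 = 6 by norm_num, Even.pow_abs (by decide)]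

lemma Approx.int6 (h : Approx Ω u G φ) : Integrable (fun x => u x ^ 6) volume := by
  have h6 : MemLp u ((6:ℕ):ENNReal) volume := by exact_mod_cast h.mem6
  refine (h6.integrable_norm_pow (by norm_num)).congr (Eventually.of_forall fun x => ?_)
  simp only [Real.norm_eq_abs]
  rw [Even.pow_abs (by decide)]

lemma Approx.memq (h : Approx Ω u G φ) (h0 : (0 : E3) ∉ Ω) :
    MemLp (fun x => u x ^ 2 / ‖x‖ ^ (1/2 : ℝ)) 2 volume := by
  have hm : AEStronglyMeasurable (fun x => u x ^ 2 / ‖x‖ ^ (1/2 : ℝ)) volume := by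
    simp only [div_eq_mul_inv]
    exact (h.hu.1.pow 2).mul ((measurable_norm.pow_const _).inv.aestronglyMeasurable)
  rw [memLp_two_iff_integrable_sq hm]
  have h1 := h.mem3.integrable_mul (h.memH h0)
  refine h1.congr (Eventually.of_forall fun x => ?_)
  simp only [Pi.mul_apply]
  rw [div_pow, rp12]
  ring

lemma gradient_dil {f : E3 → ℝ} (hf : ContDiff ℝ 1 f) (t : ℝ) (x : E3) :
    gradient (fun y => f (t • y)) x = t • gradient f (t • x) := by
  have h1 : HasFDerivAt f (fderiv ℝ f (t • x)) (t • x) :=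
    (hf.differentiable one_ne_zero (t • x)).hasFDerivAt
  have h2 : HasFDerivAt (fun y : E3 => t • y) (t • ContinuousLinearMap.id ℝ E3) x :=
    (hasFDerivAt_id x).const_smul t
  have h3 := h1.comp x h2
  have h4 : fderiv ℝ (fun y => f (t • y)) x = t • fderiv ℝ f (t • x) := by
    have := h3.fderiv
    have e : (fun y => f (t • y)) = f ∘ fun y : E3 => t • y := rfl
    rw [e, this]
    ext v
    simp
  unfold gradient
  rw [h4, map_smul]

/-- the weak equation tested against smooth functions -/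
def Weak (Ω : Set E3) (u : E3 → ℝ) (G : E3 → E3) : Prop :=
  ∀ ψ : E3 → ℝ, ContDiff ℝ ((⊤ : ℕ∞) : WithTop ℕ∞) ψ → HasCompactSupport ψ → tsupport ψ ⊆ Ω →
    ∫ x, inner ℝ (G x) (gradient ψ x) =
      (∫ x, (u x ^ 2 / ‖x‖ ^ (1/2 : ℝ)) * (ψ x / ‖x‖)) - ∫ x, u x ^ 3 * ψ x

lemma Approx.eqn (h : Approx Ω u G φ) (h0 : (0 : E3) ∉ Ω)
    (hstar : ∀ t : ℝ, 1 ≤ t → ∀ x : E3, t • x ∈ Ω → x ∈ Ω) (hw : Weak Ω u G)
    {t : ℝ} (ht : 1 ≤ t) :
    t * ∫ x, inner ℝ (G x) (G (t • x)) =
      (∫ x, (u x ^ 2 / ‖x‖ ^ (1/2 : ℝ)) * (u (t • x) / ‖x‖)) - ∫ x, u x ^ 3 * u (t • x) := by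
  have ht0 : 0 < t := by linarith
  have hdilmem : ∀ {F : Type} [NormedAddCommGroup F] (f : E3 → F), MemLp f 2 volume →
      MemLp (fun x => f (t • x)) 2 volume := by
    intro F _ f hf
    refine ⟨hf.1.comp_quasiMeasurePreserving (qmp_dil ht0), ?_⟩
    exact (eLpNorm_dil_le f hf.1 ht 2 (by norm_num)).trans_lt hf.eLpNorm_lt_top
  -- the test functions
  have hψ : ∀ n, ∫ x, inner ℝ (G x) (gradient (fun y => φ n (t • y)) x) =
      (∫ x, (u x ^ 2 / ‖x‖ ^ (1/2 : ℝ)) * (φ n (t • x) / ‖x‖)) - ∫ x, u x ^ 3 * φ n (t • x) := by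
    intro n
    have hsub : Function.support (fun y => φ n (t • y)) ⊆ (fun y : E3 => t • y) ⁻¹' tsupport (φ n) := by
      intro y hy
      exact subset_tsupport _ hy
    have hcl : IsClosed ((fun y : E3 => t • y) ⁻¹' tsupport (φ n)) :=
      (isClosed_tsupport _).preimage (by fun_prop)
    have hts : tsupport (fun y => φ n (t • y)) ⊆ (fun y : E3 => t • y) ⁻¹' tsupport (φ n) :=
      closure_minimal hsub hcl
    have hcomp : HasCompactSupport (fun y => φ n (t • y)) := by
      have hk : IsCompact ((fun y : E3 => t⁻¹ • y) '' tsupport (φ n)) :=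
        (h.comp n).isCompact.image (by fun_prop)
      refine IsCompact.of_isClosed_subset hk (isClosed_tsupport _) (hts.trans ?_)
      intro y hy
      refine ⟨t • y, hy, ?_⟩
      simp [smul_smul, inv_mul_cancel₀ ht0.ne']
    refine hw (fun y => φ n (t • y)) ((h.smooth n).comp (by fun_prop)) hcomp ?_
    intro y hy
    exact hstar t ht y (h.supp n (hts hy))
  -- the three limits
  have l1 : Tendsto (fun n => ∫ x, inner ℝ (G x) (gradient (fun y => φ n (t • y)) x)) atTop
      (𝓝 (∫ x, inner ℝ (G x) (t • G (t • x)))) := by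
    have e1 : ∀ n, (fun x => inner ℝ (G x) (gradient (fun y => φ n (t • y)) x)) =
        fun x => inner ℝ (G x) (t • gradient (φ n) (t • x)) := by
      intro n; funext x
      rw [gradient_dil (h.c1 n)]
    simp_rw [e1]
    refine tendsto_pair G h.hG (fun n x => t • gradient (φ n) (t • x))
      (fun n => (hdilmem _ (h.memG n)).const_smul t) (fun x => t • G (t • x))
      ((hdilmem _ h.hG).const_smul t) ?_
    have e2 : ∀ n, eLpNorm (fun x => t • gradient (φ n) (t • x) - t • G (t • x)) 2 volume ≤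
        ‖t‖ₑ * eLpNorm (fun x => gradient (φ n) x - G x) 2 volume := by
      intro n
      have e3 : (fun x => t • gradient (φ n) (t • x) - t • G (t • x)) =
          t • fun x => (fun z => gradient (φ n) z - G z) (t • x) := by
        funext x
        simp [smul_sub]
      rw [e3, eLpNorm_const_smul]
      gcongr
      exact eLpNorm_dil_le (fun z => gradient (φ n) z - G z) ((h.memG n).1.sub h.hG.1) ht 2
        (by norm_num)
    refine tendsto_of_tendsto_of_tendsto_of_le_of_le tendsto_const_nhds ?_ (fun _ => zero_le) e2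
    have := ENNReal.Tendsto.const_mul h.lG (Or.inr (enorm_ne_top : ‖t‖ₑ ≠ ⊤))
    simpa using this
  have l2 : Tendsto (fun n => ∫ x, (u x ^ 2 / ‖x‖ ^ (1/2 : ℝ)) * (φ n (t • x) / ‖x‖)) atTop
      (𝓝 (∫ x, (u x ^ 2 / ‖x‖ ^ (1/2 : ℝ)) * (u (t • x) / ‖x‖))) := by
    have hq : ∀ (f : E3 → ℝ), (fun x => f (t • x) / ‖x‖) =
        t • fun x => (fun z => f z / ‖z‖) (t • x) := by
      intro f
      funext x
      simp only [Pi.smul_apply, smul_eq_mul, norm_smul, Real.norm_eq_abs, abs_of_pos ht0]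
      by_cases hx : ‖x‖ = 0
      · simp [hx]
      · field_simp
    have hmemφ : ∀ n, MemLp (fun x => φ n x / ‖x‖) 2 volume := by
      intro n
      refine ⟨meas_div (h.smooth n).continuous.aestronglyMeasurable, ?_⟩
      refine (hardy (φ n) (h.c1 n) (h.comp n) (fun hh => h0 (h.supp n hh))).trans_lt ?_
      exact ENNReal.mul_lt_top (by norm_num) (h.memG n).eLpNorm_lt_top
    refine tendsto_pair_real _ (h.memq h0) (fun n x => φ n (t • x) / ‖x‖)
      (fun n => ?_) (fun x => u (t • x) / ‖x‖) ?_ ?_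
    · rw [hq (φ n)]
      exact (hdilmem _ (hmemφ n)).const_smul t
    · rw [hq u]
      exact (hdilmem _ (h.memH h0)).const_smul t
    · have e2 : ∀ n, eLpNorm (fun x => φ n (t • x) / ‖x‖ - u (t • x) / ‖x‖) 2 volume ≤
          ‖t‖ₑ * (6 * eLpNorm (fun x => gradient (φ n) x - G x) 2 volume) := by
        intro n
        have e3 : (fun x => φ n (t • x) / ‖x‖ - u (t • x) / ‖x‖) =
            t • fun x => (fun z => (φ n z - u z) / ‖z‖) (t • x) := by
          rw [← hq (fun z => φ n z - u z)]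
          funext x
          ring
        rw [e3, eLpNorm_const_smul]
        gcongr
        refine (eLpNorm_dil_le (fun z => (φ n z - u z) / ‖z‖)
          (meas_div ((h.smooth n).continuous.aestronglyMeasurable.sub h.hu.1)) ht 2
          (by norm_num)).trans ?_
        exact h.hardyLim h0 n
      refine tendsto_of_tendsto_of_tendsto_of_le_of_le tendsto_const_nhds ?_ (fun _ => zero_le) e2
      have h6 := ENNReal.Tendsto.const_mul h.lG (Or.inr (by norm_num : (6:ENNReal) ≠ ⊤))
      have := ENNReal.Tendsto.const_mul h6 (Or.inr (enorm_ne_top : ‖t‖ₑ ≠ ⊤))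
      simpa using this
  have l3 : Tendsto (fun n => ∫ x, u x ^ 3 * φ n (t • x)) atTop
      (𝓝 (∫ x, u x ^ 3 * u (t • x))) := by
    have hmemφ : ∀ n, MemLp (φ n) 2 volume := fun n =>
      (h.smooth n).continuous.memLp_of_hasCompactSupport (h.comp n)
    refine tendsto_pair_real _ h.mem3 (fun n x => φ n (t • x))
      (fun n => hdilmem _ (hmemφ n)) (fun x => u (t • x)) (hdilmem _ h.hu) ?_
    have e2 : ∀ n, eLpNorm (fun x => φ n (t • x) - u (t • x)) 2 volume ≤
        eLpNorm (fun x => φ n x - u x) 2 volume := fun n =>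
      eLpNorm_dil_le (fun z => φ n z - u z)
        ((h.smooth n).continuous.aestronglyMeasurable.sub h.hu.1) ht 2 (by norm_num)
    exact tendsto_of_tendsto_of_tendsto_of_le_of_le tendsto_const_nhds h.lu (fun _ => zero_le) e2
  have l4 := l2.sub l3
  simp_rw [← hψ] at l4
  have l5 := tendsto_nhds_unique l1 l4
  rw [← l5, ← integral_const_mul]
  congr 1
  funext x
  rw [inner_smul_right]

end Pool.Agent.U524.HS
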