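import Pool.Agent.U524.HS.Eqn

set_option autoImplicit false
open MeasureTheory Filter Topology Set

namespace Pool.Agent.U524.HS

variable {Ω : Set E3} {u : E3 → ℝ} {G : E3 → E3} {φ : ℕ → E3 → ℝ}

/-- the elementary pointwise inequality -/
lemma pt_ineq {a b r s l : ℝ} (ha : 0 ≤ a) (hb : 0 ≤ b) (hs : 0 < s) (hr : r = s ^ 2) (hl : 0 < l) :
    (b - a) ^ 2 * (b + 2 * a) / (s * r) ≤
      l * ((b - a) / r) ^ 2 + (l ^ 3)⁻¹ * (b + 2 * a) ^ 6 := by
  subst hr
  set V := b + 2 * a with hV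
  have hV0 : 0 ≤ V := by positivity
  have hd : (b - a) ^ 2 ≤ V ^ 2 := by
    have : 0 ≤ 3 * a * (2 * b + a) := by positivity
    nlinarith [this]
  rcases le_or_gt (V * s) l with hc | hc
  · have h1 : (b - a) ^ 2 * V / (s * s ^ 2) ≤ l * ((b - a) / s ^ 2) ^ 2 := by
      rw [div_pow, div_le_iff₀ (by positivity)]
      have e : l * ((b - a) ^ 2 / (s ^ 2) ^ 2) * (s * s ^ 2) = l * (b - a) ^ 2 / s := by
        field_simp
      rw [e, le_div_iff₀ hs]
      calc (b - a) ^ 2 * V * s = (b - a) ^ 2 * (V * s) := by ring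
        _ ≤ (b - a) ^ 2 * l := by gcongr
        _ = l * (b - a) ^ 2 := by ring
    have h2 : 0 ≤ (l ^ 3)⁻¹ * V ^ 6 := by positivity
    linarith
  · have h1 : (b - a) ^ 2 * V / (s * s ^ 2) ≤ (l ^ 3)⁻¹ * V ^ 6 := by
      rw [div_le_iff₀ (by positivity)]
      have e : (l ^ 3)⁻¹ * V ^ 6 * (s * s ^ 2) = (V ^ 3) * ((V * s) ^ 3) / l ^ 3 := by
        field_simp
      rw [e, le_div_iff₀ (by positivity)]
      calc (b - a) ^ 2 * V * l ^ 3 ≤ V ^ 2 * V * (V * s) ^ 3 := by gcongr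
        _ = V ^ 3 * (V * s) ^ 3 := by ring
    have h2 : 0 ≤ l * ((b - a) / s ^ 2) ^ 2 := by positivity
    linarith

lemma young4 (a b : ℝ) : a ^ 3 * b ≤ 3/4 * a ^ 4 + 1/4 * b ^ 4 := by
  have h : 3/4 * a ^ 4 + 1/4 * b ^ 4 - a ^ 3 * b =
      1/4 * ((a - b) ^ 2 * (2 * a ^ 2 + (a + b) ^ 2)) := by ring
  have : 0 ≤ 1/4 * ((a - b) ^ 2 * (2 * a ^ 2 + (a + b) ^ 2)) := by positivity
  linarith

lemma lin4 {f1 f2 f3 f4 : E3 → ℝ} (i1 : Integrable f1 volume) (i2 : Integrable f2 volume)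
    (i3 : Integrable f3 volume) (i4 : Integrable f4 volume) (c1 c2 c3 c4 : ℝ) :
    Integrable (fun x => c1 * f1 x + c2 * f2 x - 1/3 * (c3 * f3 x + c4 * f4 x)) volume ∧
    ∫ x, (c1 * f1 x + c2 * f2 x - 1/3 * (c3 * f3 x + c4 * f4 x)) =
      c1 * (∫ x, f1 x) + c2 * (∫ x, f2 x) - 1/3 * (c3 * (∫ x, f3 x) + c4 * (∫ x, f4 x)) := by
  have j1 : Integrable (fun x => c1 * f1 x + c2 * f2 x) volume :=
    (i1.const_mul c1).add (i2.const_mul c2)
  have j2 : Integrable (fun x => c3 * f3 x + c4 * f4 x) volume :=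
    (i3.const_mul c3).add (i4.const_mul c4)
  refine ⟨j1.sub (j2.const_mul _), ?_⟩
  rw [integral_sub j1 (j2.const_mul _), integral_const_mul,
    integral_add (i1.const_mul c1) (i2.const_mul c2), integral_add (i3.const_mul c3) (i4.const_mul c4),
    integral_const_mul, integral_const_mul, integral_const_mul, integral_const_mul]

lemma A_pt {a b : ℝ} (x : E3) (ha : 0 ≤ a) (hb : 0 ≤ b) {l : ℝ} (hl : 0 < l) :
    2/3 * (a ^ 3 / ‖x‖ ^ (3/2 : ℝ)) + 1/3 * (b ^ 3 / ‖x‖ ^ (3/2 : ℝ))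
        - 1/3 * (l * ((b - a) / ‖x‖) ^ 2 + (l^3)⁻¹ * (b + 2 * a) ^ 6) ≤
      (a ^ 2 / ‖x‖ ^ (1/2 : ℝ)) * (b / ‖x‖) := by
  by_cases hx : ‖x‖ = 0
  · rw [hx]
    have h1 : (0:ℝ) ^ (3/2 : ℝ) = 0 := Real.zero_rpow (by norm_num)
    rw [h1]
    simp only [div_zero, mul_zero, add_zero]
    have : 0 ≤ 1/3 * (l * (0:ℝ) ^ 2 + (l^3)⁻¹ * (b + 2 * a) ^ 6) := by positivity
    linarith
  · have hx0 : 0 < ‖x‖ := lt_of_le_of_ne (norm_nonneg x) (Ne.symm hx)
    have hs : 0 < ‖x‖ ^ (1/2 : ℝ) := Real.rpow_pos_of_pos hx0 _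
    have h1 := pt_ineq ha hb hs (rp12 x).symm hl
    rw [← rp32]
    set s := ‖x‖ ^ (1/2 : ℝ) with hs'
    have h2 : (a ^ 2 / s) * (b / ‖x‖) = 2/3 * (a ^ 3 / (s * ‖x‖)) + 1/3 * (b ^ 3 / (s * ‖x‖)) -
        1/3 * ((b - a) ^ 2 * (b + 2 * a) / (s * ‖x‖)) := by
      field_simp
      ring
    rw [h2]
    linarith

lemma final_real {a b g c : ℝ} (ha : 0 ≤ a) (hb : 0 < b) (hg : 0 ≤ g) (hc : 0 ≤ c)
    (h : ∀ y : ℝ, 0 < y → y < 1 → ∀ l : ℝ, 0 < l →
      a * (2/3 + y^3/3 - y) + b * (y - 3/4 - y^6/4) ≤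
        (1/3) * (l * ((y^2)⁻¹ - 1)^2 * g + (l^3)⁻¹ * (1458 * c))) : False := by
  set C := (1/3) * (16 * g + 1458 * c) with hC
  have hC0 : 0 ≤ C := by positivity
  set k := min (1/4) (b / (8 * (C + 1))) with hk
  have hk0 : 0 < k := lt_min (by norm_num) (by positivity)
  have hk4 : k ≤ 1/4 := min_le_left _ _
  have hkb : k ≤ b / (8 * (C + 1)) := min_le_right _ _
  have hkb' : k * (8 * (C + 1)) ≤ b := by
    rwa [le_div_iff₀ (by positivity)] at hkb
  have hk2 : k ^ 2 ≤ 1/16 := by nlinarith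
  have hy0 : 0 < 1 - k ^ 2 := by linarith
  have h1 := h (1 - k^2) hy0 (by nlinarith [sq_nonneg k, pow_pos hk0 2]) k⁻¹ (by positivity)
  set y := 1 - k ^ 2 with hy
  have hy1516 : 15/16 ≤ y := by rw [hy]; linarith
  have hA : 0 ≤ a * (2/3 + y^3/3 - y) := by
    have : 2/3 + y^3/3 - y = (1/3) * (1 - y)^2 * (y + 2) := by ring
    rw [this]; positivity
  have hB : b * (k^2 / 4) ≤ b * (y - 3/4 - y^6/4) := by
    gcongr
    have e : y - 3/4 - y^6/4 = k^2/2 - 15/4 * k^4 + 5 * k^6 - 15/4 * k^8 + 3/2 * k^10 - k^12/4 := by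
      rw [hy]; ring
    rw [e]
    have h4 : k^4 ≤ k^2 / 16 := by nlinarith [pow_pos hk0 2]
    have h8 : k^8 ≤ k^6 / 16 := by nlinarith [pow_pos hk0 6]
    have h12 : k^12 ≤ k^10 / 16 := by nlinarith [pow_pos hk0 10]
    have p6 := pow_pos hk0 6
    have p10 := pow_pos hk0 10
    have p2 := pow_pos hk0 2
    linarith
  have hD : (k⁻¹ * ((y^2)⁻¹ - 1)^2 * g + ((k⁻¹)^3)⁻¹ * (1458 * c)) ≤ k^3 * (16 * g + 1458 * c) := by
    have e1 : ((k⁻¹)^3)⁻¹ = k^3 := by
      rw [inv_pow, inv_inv]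
    have e2 : ((y^2)⁻¹ - 1)^2 ≤ 16 * k^4 := by
      have h3 : (y^2)⁻¹ - 1 ≤ 4 * k^2 := by
        rw [sub_le_iff_le_add, inv_le_comm₀ (by positivity) (by positivity)]
        rw [inv_eq_one_div, div_le_iff₀ (by positivity)]
        rw [hy]
        nlinarith [pow_pos hk0 2, pow_pos hk0 4, pow_pos hk0 6]
      have h4 : 0 ≤ (y^2)⁻¹ - 1 := by
        rw [sub_nonneg]
        apply (one_le_inv₀ (by positivity)).mpr
        have : y ≤ 1 := by rw [hy]; nlinarith [sq_nonneg k]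
        nlinarith
      calc ((y^2)⁻¹ - 1)^2 ≤ (4 * k^2)^2 := by gcongr
        _ = 16 * k^4 := by ring
    have e3 : k⁻¹ * ((y^2)⁻¹ - 1)^2 ≤ 16 * k^3 := by
      rw [inv_mul_le_iff₀ hk0]
      calc ((y^2)⁻¹ - 1)^2 ≤ 16 * k^4 := e2
        _ = k * (16 * k^3) := by ring
    rw [e1]
    calc k⁻¹ * ((y^2)⁻¹ - 1)^2 * g + k^3 * (1458 * c) ≤ 16 * k^3 * g + k^3 * (1458 * c) := by
          gcongr
      _ = _ := by ring
  have hE : b * (k^2/4) ≤ k^3 * C := by
    calc b * (k^2/4) ≤ _ := hB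
      _ ≤ (1/3) * (k⁻¹ * ((y^2)⁻¹ - 1)^2 * g + ((k⁻¹)^3)⁻¹ * (1458 * c)) := by linarith [h1, hA]
      _ ≤ (1/3) * (k^3 * (16 * g + 1458 * c)) := by gcongr
      _ = _ := by rw [hC]; ring
  have hF : b / 4 ≤ k * C := by
    have p2 := pow_pos hk0 2
    have : (b / 4) * k^2 ≤ (k * C) * k^2 := by linarith
    exact le_of_mul_le_mul_right this p2
  nlinarith

/-- The dilation inequality. -/
lemma Approx.dil_ineq (h : Approx Ω u G φ) (h0 : (0 : E3) ∉ Ω)
    (hstar : ∀ t : ℝ, 1 ≤ t → ∀ x : E3, t • x ∈ Ω → x ∈ Ω) (hw : Weak Ω u G)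
    (hpos : ∀ x, 0 ≤ u x) {y : ℝ} (hy0 : 0 < y) (hy1 : y < 1) {l : ℝ} (hl : 0 < l) :
    (∫ x, u x ^ 3 / ‖x‖ ^ (3/2 : ℝ)) * (2/3 + y^3/3 - y) + (∫ x, u x ^ 4) * (y - 3/4 - y^6/4) ≤
      (1/3) * (l * ((y^2)⁻¹ - 1)^2 * (∫ x, ‖G x‖ ^ 2) + (l^3)⁻¹ * (1458 * ∫ x, u x ^ 6)) := by
  set t := (y^2)⁻¹ with ht
  have hy2 : y ^ 2 < 1 := by nlinarith
  have ht1 : 1 ≤ t := (one_le_inv₀ (by positivity)).mpr hy2.le
  have ht0 : 0 < t := by positivity
  have ht3 : (t ^ 3)⁻¹ = y ^ 6 := by rw [ht, inv_pow, inv_inv]; ring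
  set a := ∫ x, u x ^ 3 / ‖x‖ ^ (3/2 : ℝ) with ha
  set b := ∫ x, u x ^ 4 with hb
  set g := ∫ x, ‖G x‖ ^ 2 with hg
  -- integrability
  have dil2 : ∀ {F : Type} [NormedAddCommGroup F] (f : E3 → F), MemLp f 2 volume →
      MemLp (fun x => f (t • x)) 2 volume := by
    intro F _ f hf
    refine ⟨hf.1.comp_quasiMeasurePreserving (qmp_dil ht0), ?_⟩
    exact (eLpNorm_dil_le f hf.1 ht1 2 (by norm_num)).trans_lt hf.eLpNorm_lt_top
  have dilI : ∀ (f : E3 → ℝ), Integrable f volume → Integrable (fun x => f (t • x)) volume :=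
    fun f hf => hf.comp_smul ht0.ne'
  have hq := h.memq h0
  have hH := h.memH h0
  have hHd : MemLp (fun x => u (t • x) / ‖x‖) 2 volume := by
    have e : (fun x => u (t • x) / ‖x‖) = t • fun x => (fun z => u z / ‖z‖) (t • x) := by
      funext x
      simp only [Pi.smul_apply, smul_eq_mul, norm_smul, Real.norm_eq_abs, abs_of_pos ht0]
      by_cases hx : ‖x‖ = 0
      · simp [hx]
      · field_simp
    rw [e]
    exact (dil2 _ hH).const_smul t
  have ia : Integrable (fun x => u x ^ 3 / ‖x‖ ^ (3/2 : ℝ)) volume := by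
    refine (hq.integrable_mul hH).congr (Eventually.of_forall fun x => ?_)
    simp only [Pi.mul_apply]
    rw [← rp32, div_mul_div_comm]
    ring
  have iA : Integrable (fun x => (u x ^ 2 / ‖x‖ ^ (1/2 : ℝ)) * (u (t • x) / ‖x‖)) volume :=
    hq.integrable_mul hHd
  have ib : Integrable (fun x => u x ^ 4) volume := by
    refine (h.mem3.integrable_mul h.hu).congr (Eventually.of_forall fun x => ?_)
    simp only [Pi.mul_apply]
    ring
  have iB : Integrable (fun x => u x ^ 3 * u (t • x)) volume :=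
    h.mem3.integrable_mul (dil2 _ h.hu)
  have i6 := h.int6
  have iG : Integrable (fun x => ‖G x‖ ^ 2) volume := h.hG.integrable_norm_pow (by norm_num)
  have iGd : Integrable (fun x => ‖G (t • x)‖ ^ 2) volume := dilI _ iG
  have iGi : Integrable (fun x => inner ℝ (G x) (G (t • x))) volume := by
    have := (dil2 _ h.hG)
    refine Integrable.mono' ((h.hG.norm).integrable_mul this.norm)
      (h.hG.1.inner this.1) (Eventually.of_forall fun x => ?_)
    exact norm_inner_le_norm (𝕜 := ℝ) _ _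
  -- the equation
  have heq := h.eqn h0 hstar hw ht1
  have heq1 := h.eqn h0 hstar hw (le_refl 1)
  have E1 : g = a - b := by
    have e1 : ∫ x, inner ℝ (G x) (G ((1:ℝ) • x)) = g := by
      rw [hg]; congr 1; funext x; rw [one_smul, real_inner_self_eq_norm_sq]
    have e2 : ∫ x, (u x ^ 2 / ‖x‖ ^ (1/2 : ℝ)) * (u ((1:ℝ) • x) / ‖x‖) = a := by
      rw [ha]; congr 1; funext x; rw [one_smul, ← rp32, div_mul_div_comm]; ring
    have e3 : ∫ x, u x ^ 3 * u ((1:ℝ) • x) = b := by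
      rw [hb]; congr 1; funext x; rw [one_smul]; ring
    rw [e1, e2, e3, one_mul] at heq1
    exact heq1
  -- D bound
  have hD : t * ∫ x, inner ℝ (G x) (G (t • x)) ≤ y * g := by
    have h1 : ∫ x, inner ℝ (G x) (G (t • x)) ≤
        ∫ x, (y^3/2 * ‖G x‖ ^ 2 + (y^3)⁻¹/2 * ‖G (t • x)‖ ^ 2) := by
      apply integral_mono iGi ((iG.const_mul _).add (iGd.const_mul _))
      intro x
      have h2 := real_inner_le_norm (G x) (G (t • x))
      have h3 : ‖G x‖ * ‖G (t • x)‖ ≤ y^3/2 * ‖G x‖ ^ 2 + (y^3)⁻¹/2 * ‖G (t • x)‖ ^ 2 := by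
        have hy3 : 0 < y ^ 3 := by positivity
        have h4 : 0 ≤ (y^3)⁻¹/2 * (y^3 * ‖G x‖ - ‖G (t • x)‖) ^ 2 := by positivity
        have h5 : (y^3)⁻¹/2 * (y^3 * ‖G x‖ - ‖G (t • x)‖) ^ 2 =
            y^3/2 * ‖G x‖ ^ 2 + (y^3)⁻¹/2 * ‖G (t • x)‖ ^ 2 - ‖G x‖ * ‖G (t • x)‖ := by
          field_simp
          ring
        linarith
      simp only [Pi.add_apply]
      linarith
    rw [integral_add (iG.const_mul _) (iGd.const_mul _), integral_const_mul, integral_const_mul,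
      integral_dil (fun x => ‖G x‖ ^ 2) ht0, ht3] at h1
    have h2 : y^3/2 * g + (y^3)⁻¹/2 * (y^6 * g) = y^3 * g := by
      field_simp
      ring
    have h3 : ∫ x, inner ℝ (G x) (G (t • x)) ≤ y^3 * g := by linarith
    calc t * ∫ x, inner ℝ (G x) (G (t • x)) ≤ t * (y^3 * g) := by gcongr
      _ = y * g := by rw [ht]; field_simp
  -- B bound
  have hB : ∫ x, u x ^ 3 * u (t • x) ≤ 3/4 * b + y^6/4 * b := by
    have i4d : Integrable (fun x => u (t • x) ^ 4) volume := dilI _ ib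
    have h1 : ∫ x, u x ^ 3 * u (t • x) ≤ ∫ x, (3/4 * u x ^ 4 + 1/4 * u (t • x) ^ 4) := by
      apply integral_mono iB ((ib.const_mul _).add (i4d.const_mul _))
      intro x
      simp only [Pi.add_apply]
      exact young4 (u x) (u (t • x))
    rw [integral_add (ib.const_mul _) (i4d.const_mul _), integral_const_mul, integral_const_mul,
      integral_dil (fun x => u x ^ 4) ht0, ht3] at h1
    linarith
  -- A bound
  have hA : 2/3 * a + y^3/3 * a - (1/3) * (l * (t - 1)^2 * g + (l^3)⁻¹ * (1458 * ∫ x, u x ^ 6)) ≤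
      ∫ x, (u x ^ 2 / ‖x‖ ^ (1/2 : ℝ)) * (u (t • x) / ‖x‖) := by
    have iad : Integrable (fun x => u (t • x) ^ 3 / ‖x‖ ^ (3/2 : ℝ)) volume := by
      have e : (fun x => u (t • x) ^ 3 / ‖x‖ ^ (3/2 : ℝ)) =
          fun x => t ^ (3/2 : ℝ) * (fun z => u z ^ 3 / ‖z‖ ^ (3/2 : ℝ)) (t • x) := by
        funext x
        simp only [norm_smul, Real.norm_eq_abs, abs_of_pos ht0]
        rw [Real.mul_rpow ht0.le (norm_nonneg x)]
        have : 0 < t ^ (3/2 : ℝ) := Real.rpow_pos_of_pos ht0 _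
        by_cases hx : ‖x‖ ^ (3/2 : ℝ) = 0
        · simp [hx]
        · field_simp
      rw [e]
      exact (dilI _ ia).const_mul _
    have ead : ∫ x, u (t • x) ^ 3 / ‖x‖ ^ (3/2 : ℝ) = y^3 * a := by
      have e : (fun x => u (t • x) ^ 3 / ‖x‖ ^ (3/2 : ℝ)) =
          fun x => t ^ (3/2 : ℝ) * (fun z => u z ^ 3 / ‖z‖ ^ (3/2 : ℝ)) (t • x) := by
        funext x
        simp only [norm_smul, Real.norm_eq_abs, abs_of_pos ht0]
        rw [Real.mul_rpow ht0.le (norm_nonneg x)]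
        have : 0 < t ^ (3/2 : ℝ) := Real.rpow_pos_of_pos ht0 _
        by_cases hx : ‖x‖ ^ (3/2 : ℝ) = 0
        · simp [hx]
        · field_simp
      rw [e, integral_const_mul, integral_dil (fun z => u z ^ 3 / ‖z‖ ^ (3/2 : ℝ)) ht0, ht3]
      have e2 : t ^ (3/2 : ℝ) = (y^3)⁻¹ := by
        rw [ht, Real.inv_rpow (by positivity), ← Real.rpow_natCast y 2, ← Real.rpow_mul hy0.le]
        have : ((2:ℕ):ℝ) * (3/2) = ((3:ℕ):ℝ) := by norm_num
        rw [this, Real.rpow_natCast]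
      rw [e2, ← ha]
      field_simp
    have hm : MemLp (fun x => (u (t • x) - u x) / ‖x‖) 2 volume := by
      have e : (fun x => (u (t • x) - u x) / ‖x‖) =
          (fun x => u (t • x) / ‖x‖) - fun x => u x / ‖x‖ := by
        funext x
        simp only [Pi.sub_apply]
        ring
      rw [e]
      exact hHd.sub hH
    have iR1 : Integrable (fun x => ((u (t • x) - u x) / ‖x‖) ^ 2) volume :=
      (memLp_two_iff_integrable_sq hm.1).mp hm
    have hR1 : ∫ x, ((u (t • x) - u x) / ‖x‖) ^ 2 ≤ (t - 1)^2 * g := by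
      have hd := h.dilLim ht1
      rw [← ENNReal.pow_le_pow_left_iff (n := 2) two_ne_zero, mul_pow, eL2_sq, eL2_sq,
        ← ENNReal.ofReal_pow (by linarith)] at hd
      simp only [Real.norm_eq_abs, sq_abs] at hd
      rw [← ofReal_integral_eq_lintegral_ofReal iR1 (Eventually.of_forall fun x => by positivity),
        ← ofReal_integral_eq_lintegral_ofReal iG (Eventually.of_forall fun x => by positivity),
        ← ENNReal.ofReal_mul (by positivity), ENNReal.ofReal_le_ofReal_iff (by positivity)] at hd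
      exact hd
    have i6d : Integrable (fun x => u (t • x) ^ 6) volume := dilI _ i6
    have h6pt : ∀ x, (u (t • x) + 2 * u x) ^ 6 ≤ 729 * (u (t • x) ^ 6 + u x ^ 6) := by
      intro x
      have p1 := hpos x
      have p2 := hpos (t • x)
      rcases le_total (u x) (u (t • x)) with hc | hc
      · calc (u (t • x) + 2 * u x) ^ 6 ≤ (3 * u (t • x)) ^ 6 := by
              gcongr; linarith
          _ = 729 * (u (t • x) ^ 6) := by ring
          _ ≤ _ := by nlinarith [pow_nonneg p1 6]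
      · calc (u (t • x) + 2 * u x) ^ 6 ≤ (3 * u x) ^ 6 := by
              gcongr; linarith
          _ = 729 * (u x ^ 6) := by ring
          _ ≤ _ := by nlinarith [pow_nonneg p2 6]
    have i6s : Integrable (fun x => 729 * (u (t • x) ^ 6 + u x ^ 6)) volume :=
      (i6d.add i6).const_mul _
    have iR2 : Integrable (fun x => (u (t • x) + 2 * u x) ^ 6) volume := by
      have hmeas : AEStronglyMeasurable (fun x => (u (t • x) + 2 * u x) ^ 6) volume :=
        (((dil2 _ h.hu).1).add (h.hu.1.const_mul 2)).pow 6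
      refine Integrable.mono' i6s hmeas (Eventually.of_forall fun x => ?_)
      rw [Real.norm_eq_abs, abs_of_nonneg (by positivity)]
      exact h6pt x
    have hR2 : ∫ x, (u (t • x) + 2 * u x) ^ 6 ≤ 1458 * ∫ x, u x ^ 6 := by
      have h1 := integral_mono iR2 i6s h6pt
      rw [integral_const_mul, integral_add i6d i6, integral_dil (fun x => u x ^ 6) ht0, ht3] at h1
      have h2 : 0 ≤ ∫ x, u x ^ 6 := integral_nonneg fun x => by positivity
      have h3 : y ^ 6 ≤ 1 := pow_le_one₀ hy0.le hy1.le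
      nlinarith
    obtain ⟨j1, j2⟩ := lin4 ia iad iR1 iR2 (2/3) (1/3) l ((l^3)⁻¹)
    have h1 := integral_mono j1 iA (fun x => A_pt x (hpos x) (hpos (t • x)) hl)
    rw [j2, ead] at h1
    have h2 : l * ∫ x, ((u (t • x) - u x) / ‖x‖) ^ 2 ≤ l * (t - 1)^2 * g := by
      rw [mul_assoc]; gcongr
    have h3 : (l^3)⁻¹ * ∫ x, (u (t • x) + 2 * u x) ^ 6 ≤ (l^3)⁻¹ * (1458 * ∫ x, u x ^ 6) := by
      gcongr
    linarith
  rw [heq] at hD
  have hfin : 2/3 * a + y^3/3 * a - (1/3) * (l * (t - 1)^2 * g + (l^3)⁻¹ * (1458 * ∫ x, u x ^ 6)) ≤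
      y * (a - b) + (3/4 * b + y^6/4 * b) := by
    have := E1 ▸ hD
    linarith
  linarith

theorem Approx.zero (h : Approx Ω u G φ) (h0 : (0 : E3) ∉ Ω)
    (hstar : ∀ t : ℝ, 1 ≤ t → ∀ x : E3, t • x ∈ Ω → x ∈ Ω) (hw : Weak Ω u G)
    (hpos : ∀ x, 0 ≤ u x) : u =ᵐ[volume] 0 := by
  have ib : Integrable (fun x => u x ^ 4) volume := by
    refine (h.mem3.integrable_mul h.hu).congr (Eventually.of_forall fun x => ?_)
    simp only [Pi.mul_apply]
    ring
  have hb : 0 ≤ ∫ x, u x ^ 4 := integral_nonneg fun x => by positivity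
  rcases hb.eq_or_lt with hb0 | hb0
  · have h1 := (integral_eq_zero_iff_of_nonneg (fun x => by positivity) ib).mp hb0.symm
    filter_upwards [h1] with x hx
    simpa using hx
  · exfalso
    refine final_real (a := ∫ x, u x ^ 3 / ‖x‖ ^ (3/2 : ℝ)) (g := ∫ x, ‖G x‖ ^ 2)
      (c := ∫ x, u x ^ 6) ?_ hb0 ?_ ?_ ?_
    · refine integral_nonneg fun x => ?_
      have := hpos x
      positivity
    · exact integral_nonneg fun x => by positivity
    · exact integral_nonneg fun x => by positivity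
    · intro y hy0 hy1 l hl
      exact h.dil_ineq h0 hstar hw hpos hy0 hy1 hl

end Pool.Agent.U524.HS
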