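import Pool.Agent.U524.HS.Dil

set_option autoImplicit false
open MeasureTheory Filter Topology Set

namespace Pool.Agent.U524.HS

lemma eL2_sq {F : Type*} [NormedAddCommGroup F] (f : E3 → F) :
    eLpNorm f 2 volume ^ 2 = ∫⁻ x, ENNReal.ofReal (‖f x‖ ^ 2) := by
  have h := eLpNorm_nnreal_pow_eq_lintegral (μ := (volume : Measure E3)) (f := f)
    (p := (2 : NNReal)) two_ne_zero
  have e1 : ((2 : NNReal) : ENNReal) = 2 := by norm_num
  have e2 : ((2 : NNReal) : ℝ) = (2 : ℕ) := by norm_num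
  rw [e1, e2, ENNReal.rpow_natCast] at h
  rw [h]
  congr 1
  funext x
  rw [ENNReal.rpow_natCast, ← ofReal_norm, ENNReal.ofReal_pow (norm_nonneg _)]

lemma eL_dil (φ : E3 → ℝ) (hφ : ContDiff ℝ 1 φ) {t : ℝ} (ht : 1 ≤ t) :
    eLpNorm (fun x => (φ (t • x) - φ x) / ‖x‖) 2 volume ≤
      ENNReal.ofReal (t - 1) * eLpNorm (gradient φ) 2 volume := by
  rw [← ENNReal.pow_le_pow_left_iff (n := 2) two_ne_zero, mul_pow, eL2_sq, eL2_sq,
    ← ENNReal.ofReal_pow (by linarith)]
  have h := lintegral_sq_dil φ hφ ht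
  simpa only [Real.norm_eq_abs, sq_abs] using h

lemma cont_div_norm (φ : E3 → ℝ) (hφ : Continuous φ) (h0 : (0 : E3) ∉ tsupport φ) :
    Continuous (fun x => φ x / ‖x‖) := by
  rw [continuous_iff_continuousAt]
  intro x
  by_cases hx : x = 0
  · subst hx
    have h1 : φ =ᶠ[𝓝 0] 0 := notMem_tsupport_iff_eventuallyEq.mp h0
    have h2 : (fun x => φ x / ‖x‖) =ᶠ[𝓝 0] fun _ => (0:ℝ) := by
      filter_upwards [h1] with y hy
      simp [hy]
    exact continuousAt_const.congr h2.symm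
  · exact hφ.continuousAt.div continuous_norm.continuousAt (norm_ne_zero_iff.mpr hx)

lemma hardy (φ : E3 → ℝ) (hφ : ContDiff ℝ 1 φ) (hc : HasCompactSupport φ)
    (h0 : (0 : E3) ∉ tsupport φ) :
    eLpNorm (fun x => φ x / ‖x‖) 2 volume ≤ 6 * eLpNorm (gradient φ) 2 volume := by
  have hcont := cont_div_norm φ hφ.continuous h0
  have hcs : HasCompactSupport (fun x => φ x / ‖x‖) := by
    have h1 := hc.mul_right (f' := fun x : E3 => ‖x‖⁻¹)
    have h2 : (φ * fun x : E3 => ‖x‖⁻¹) = fun x => φ x / ‖x‖ := by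
      funext x
      simp [div_eq_mul_inv]
    rwa [h2] at h1
  have hmem : MemLp (fun x => φ x / ‖x‖) 2 volume := hcont.memLp_of_hasCompactSupport hcs
  set N := eLpNorm (fun x => φ x / ‖x‖) 2 volume with hN
  have hNtop : N ≠ ⊤ := hmem.eLpNorm_ne_top
  have hd := eL_dil φ hφ (t := 4) (by norm_num)
  have hs : eLpNorm (fun x => φ ((4:ℝ) • x) / ‖x‖) 2 volume = 2⁻¹ * N := by
    have e1 : (fun x => φ ((4:ℝ) • x) / ‖x‖) =
        fun x : E3 => (4:ℝ) • ((fun x => φ x / ‖x‖) ((4:ℝ) • x)) := by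
      funext x
      simp only [norm_smul, smul_eq_mul, Real.norm_eq_abs]
      rw [abs_of_pos (by norm_num : (0:ℝ) < 4)]
      by_cases hx : ‖x‖ = 0
      · simp [hx]
      · field_simp
    rw [e1]
    have e2 := eLpNorm_const_smul (4:ℝ) (fun x : E3 => (fun x => φ x / ‖x‖) ((4:ℝ) • x)) 2 volume
    have e3 : eLpNorm (fun x : E3 => (4:ℝ) • ((fun x => φ x / ‖x‖) ((4:ℝ) • x))) 2 volume =
        ‖(4:ℝ)‖ₑ * eLpNorm (fun x : E3 => (fun x => φ x / ‖x‖) ((4:ℝ) • x)) 2 volume := e2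
    rw [e3, eLpNorm_dil (fun x => φ x / ‖x‖) hmem.1 (by norm_num) 2 (by norm_num), ← mul_assoc]
    congr 1
    have e4 : ‖(4:ℝ)‖ₑ = ENNReal.ofReal 4 := by
      rw [← ofReal_norm]; norm_num
    rw [e4, ENNReal.ofReal_rpow_of_nonneg (by positivity) ENNReal.toReal_nonneg,
      ← ENNReal.ofReal_mul (by norm_num)]
    have e5 : (1 / (2:ENNReal)).toReal = 1/2 := by norm_num
    have e6 : (4:ℝ) * ((4:ℝ) ^ 3)⁻¹ ^ ((1:ℝ)/2) = 2⁻¹ := by
      have : ((4:ℝ) ^ 3)⁻¹ = (1/8:ℝ)^2 := by norm_num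
      rw [this, ← Real.sqrt_eq_rpow, Real.sqrt_sq (by norm_num)]
      norm_num
    rw [e5, e6, ENNReal.ofReal_inv_of_pos (by norm_num)]
    norm_num
  have htri : N ≤ 2⁻¹ * N + 3 * eLpNorm (gradient φ) 2 volume := by
    have e1 : (fun x => φ x / ‖x‖) = (fun x => φ ((4:ℝ) • x) / ‖x‖) -
        fun x => (φ ((4:ℝ) • x) - φ x) / ‖x‖ := by
      funext x
      simp only [Pi.sub_apply]
      ring
    have hm1 : AEStronglyMeasurable (fun x : E3 => φ ((4:ℝ) • x) / ‖x‖) volume := by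
      have : Measurable (fun x : E3 => φ ((4:ℝ) • x) / ‖x‖) :=
        (hφ.continuous.comp (by fun_prop)).measurable.div measurable_norm
      exact this.aestronglyMeasurable
    have hm2 : AEStronglyMeasurable (fun x : E3 => (φ ((4:ℝ) • x) - φ x) / ‖x‖) volume := by
      have : Measurable (fun x : E3 => (φ ((4:ℝ) • x) - φ x) / ‖x‖) :=
        ((hφ.continuous.comp (by fun_prop)).measurable.sub hφ.continuous.measurable).div
          measurable_norm
      exact this.aestronglyMeasurable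
    calc N = eLpNorm ((fun x => φ ((4:ℝ) • x) / ‖x‖) -
        fun x => (φ ((4:ℝ) • x) - φ x) / ‖x‖) 2 volume := by rw [hN, e1]
      _ ≤ _ := eLpNorm_sub_le hm1 hm2 (by norm_num)
      _ ≤ 2⁻¹ * N + 3 * eLpNorm (gradient φ) 2 volume := by
        rw [hs]
        gcongr
        refine hd.trans ?_
        gcongr
        norm_num
  by_cases hI : eLpNorm (gradient φ) 2 volume = ⊤
  · rw [hI, ENNReal.mul_top (by norm_num)]
    exact le_top
  · have h1 : N.toReal ≤ 2⁻¹ * N.toReal + 3 * (eLpNorm (gradient φ) 2 volume).toReal := by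
      have := ENNReal.toReal_mono (by
        exact ENNReal.add_ne_top.mpr ⟨ENNReal.mul_ne_top (by norm_num) hNtop,
          ENNReal.mul_ne_top (by norm_num) hI⟩) htri
      rw [ENNReal.toReal_add (ENNReal.mul_ne_top (by norm_num) hNtop)
        (ENNReal.mul_ne_top (by norm_num) hI), ENNReal.toReal_mul, ENNReal.toReal_mul] at this
      simpa using this
    have h2 : N.toReal ≤ (6 * eLpNorm (gradient φ) 2 volume).toReal := by
      rw [ENNReal.toReal_mul]
      have : (6:ENNReal).toReal = 6 := by norm_num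
      rw [this]
      linarith
    exact (ENNReal.toReal_le_toReal hNtop (ENNReal.mul_ne_top (by norm_num) hI)).mp h2

lemma sobolev : ∃ C : NNReal, ∀ φ : E3 → ℝ, ContDiff ℝ 1 φ → HasCompactSupport φ →
    eLpNorm φ 6 volume ≤ C * eLpNorm (gradient φ) 2 volume := by
  refine ⟨SNormLESNormFDerivOfEqConst ℝ (volume : Measure E3) (2:NNReal), fun φ hφ hc => ?_⟩
  have h := eLpNorm_le_eLpNorm_fderiv_of_eq (μ := (volume : Measure E3)) hφ hc
    (p := (2:NNReal)) (p' := (6:NNReal)) (by norm_num) (by rw [finrank_E3]; norm_num)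
    (by rw [finrank_E3]; norm_num)
  have e1 : eLpNorm (fderiv ℝ φ) 2 (volume : Measure E3) = eLpNorm (gradient φ) 2 volume :=
    eLpNorm_congr_norm_ae (Eventually.of_forall fun x => (norm_gradient φ x).symm)
  have e2 : ((2 : NNReal) : ENNReal) = 2 := by norm_num
  have e3 : ((6 : NNReal) : ENNReal) = 6 := by norm_num
  rw [e2, e3, e1] at h
  exact h

end Pool.Agent.U524.HS
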