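import Pool.Agent.U524.HS.Ineq

set_option autoImplicit false
open MeasureTheory Filter Topology Set

namespace Pool.Agent.U524.HS

/-- pairing of `L²` functions passes to the limit -/
lemma tendsto_pair {F : Type*} [NormedAddCommGroup F] [InnerProductSpace ℝ F]
    (f : E3 → F) (hf : MemLp f 2 volume) (g : ℕ → E3 → F) (hg : ∀ n, MemLp (g n) 2 volume)
    (h : E3 → F) (hh : MemLp h 2 volume)
    (hlim : Tendsto (fun n => eLpNorm (fun x => g n x - h x) 2 volume) atTop (𝓝 0)) :
    Tendsto (fun n => ∫ x, inner ℝ (f x) (g n x)) atTop (𝓝 (∫ x, inner ℝ (f x) (h x))) := by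
  have h1 : Tendsto (fun n => (hg n).toLp (g n)) atTop (𝓝 (hh.toLp h)) := by
    rw [Lp.tendsto_Lp_iff_tendsto_eLpNorm'' _ hg _ hh]
    exact hlim
  have h2 : ∀ (g' : E3 → F) (hg' : MemLp g' 2 volume),
      inner ℝ (hf.toLp f) (hg'.toLp g') = ∫ x, inner ℝ (f x) (g' x) := by
    intro g' hg'
    rw [L2.inner_def]
    apply integral_congr_ae
    filter_upwards [hf.coeFn_toLp, hg'.coeFn_toLp] with x hx1 hx2
    rw [hx1, hx2]
  have h3 : Tendsto (fun n => inner ℝ (hf.toLp f) ((hg n).toLp (g n))) atTop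
      (𝓝 (inner ℝ (hf.toLp f) (hh.toLp h))) := (tendsto_const_nhds).inner h1
  simpa only [h2] using h3

lemma tendsto_pair_real
    (f : E3 → ℝ) (hf : MemLp f 2 volume) (g : ℕ → E3 → ℝ) (hg : ∀ n, MemLp (g n) 2 volume)
    (h : E3 → ℝ) (hh : MemLp h 2 volume)
    (hlim : Tendsto (fun n => eLpNorm (fun x => g n x - h x) 2 volume) atTop (𝓝 0)) :
    Tendsto (fun n => ∫ x, f x * g n x) atTop (𝓝 (∫ x, f x * h x)) := by
  have := tendsto_pair f hf g hg h hh hlim
  simpa [mul_comm] using this

/-- the data of an approximation of `u`, `G` -/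
structure Approx (Ω : Set E3) (u : E3 → ℝ) (G : E3 → E3) (φ : ℕ → E3 → ℝ) : Prop where
  hu : MemLp u 2 volume
  hG : MemLp G 2 volume
  smooth : ∀ n, ContDiff ℝ ((⊤ : ℕ∞) : WithTop ℕ∞) (φ n)
  comp : ∀ n, HasCompactSupport (φ n)
  supp : ∀ n, tsupport (φ n) ⊆ Ω
  ae : ∀ᵐ x, Tendsto (fun n => φ n x) atTop (𝓝 (u x))
  lu : Tendsto (fun n => eLpNorm (fun x => φ n x - u x) 2 volume) atTop (𝓝 0)
  lG : Tendsto (fun n => eLpNorm (fun x => gradient (φ n) x - G x) 2 volume) atTop (𝓝 0)

variable {Ω : Set E3} {u : E3 → ℝ} {G : E3 → E3} {φ : ℕ → E3 → ℝ}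

lemma Approx.c1 (h : Approx Ω u G φ) (n : ℕ) : ContDiff ℝ 1 (φ n) := by
  refine (h.smooth n).of_le ?_
  exact_mod_cast le_top

lemma Approx.memG (h : Approx Ω u G φ) (n : ℕ) : MemLp (gradient (φ n)) 2 volume := by
  have hc := continuous_gradient (h.c1 n)
  have hcs : HasCompactSupport (gradient (φ n)) := by
    have h1 := (h.comp n).fderiv (𝕜 := ℝ)
    unfold gradient
    exact h1.comp_left (g := (InnerProductSpace.toDual ℝ E3).symm) (map_zero _)
  exact hc.memLp_of_hasCompactSupport hcs

/-- the lower semicontinuity scheme -/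
lemma Approx.fatou (h : Approx Ω u G φ) {F : Type*} [NormedAddCommGroup F] (p : ENNReal)
    (C : ENNReal) (hC : C ≠ ⊤) (Φ : ℕ → E3 → F) (Φl : E3 → F)
    (hm : ∀ n, AEStronglyMeasurable (Φ n) volume)
    (hae : ∀ᵐ x, Tendsto (fun n => Φ n x) atTop (𝓝 (Φl x)))
    (V : E3 → E3) (hV : AEStronglyMeasurable V volume)
    (hb : ∀ n, eLpNorm (Φ n) p volume ≤ C * eLpNorm (fun x => gradient (φ n) x - V x) 2 volume) :
    eLpNorm Φl p volume ≤ C * eLpNorm (fun x => G x - V x) 2 volume := by
  refine (Lp.eLpNorm_lim_le_liminf_eLpNorm hm Φl hae).trans ?_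
  have h1 : ∀ n, eLpNorm (Φ n) p volume ≤
      C * (eLpNorm (fun x => gradient (φ n) x - G x) 2 volume +
        eLpNorm (fun x => G x - V x) 2 volume) := by
    intro n
    refine (hb n).trans ?_
    gcongr
    have e1 : (fun x => gradient (φ n) x - V x) =
        (fun x => gradient (φ n) x - G x) + fun x => G x - V x := by
      funext x; simp
    rw [e1]
    exact eLpNorm_add_le ((h.memG n).1.sub h.hG.1) (h.hG.1.sub hV) (by norm_num)
  have h2 : Tendsto (fun n => C * (eLpNorm (fun x => gradient (φ n) x - G x) 2 volume +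
        eLpNorm (fun x => G x - V x) 2 volume)) atTop
      (𝓝 (C * (0 + eLpNorm (fun x => G x - V x) 2 volume))) :=
    ENNReal.Tendsto.const_mul (h.lG.add tendsto_const_nhds) (Or.inr hC)
  calc atTop.liminf (fun n => eLpNorm (Φ n) p volume)
      ≤ atTop.liminf (fun n => C * (eLpNorm (fun x => gradient (φ n) x - G x) 2 volume +
        eLpNorm (fun x => G x - V x) 2 volume)) := liminf_le_liminf (Eventually.of_forall h1)
    _ = C * (0 + eLpNorm (fun x => G x - V x) 2 volume) := h2.liminf_eq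
    _ = _ := by rw [zero_add]

lemma Approx.mem6 (h : Approx Ω u G φ) : MemLp u 6 volume := by
  obtain ⟨C, hC⟩ := sobolev
  refine ⟨h.hu.1, ?_⟩
  have := h.fatou 6 C ENNReal.coe_ne_top (fun n => φ n) u
    (fun n => (h.smooth n).continuous.aestronglyMeasurable) h.ae 0 aestronglyMeasurable_const
    (fun n => by simpa using hC (φ n) (h.c1 n) (h.comp n))
  refine this.trans_lt ?_
  simp only [Pi.zero_apply, sub_zero]
  exact ENNReal.mul_lt_top ENNReal.coe_lt_top h.hG.eLpNorm_lt_top

lemma meas_div {f : E3 → ℝ} (hf : AEStronglyMeasurable f volume) :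
    AEStronglyMeasurable (fun x => f x / ‖x‖) volume := by
  simp only [div_eq_mul_inv]
  exact hf.mul (measurable_norm.inv.aestronglyMeasurable)

lemma Approx.memH (h : Approx Ω u G φ) (h0 : (0 : E3) ∉ Ω) :
    MemLp (fun x => u x / ‖x‖) 2 volume := by
  refine ⟨meas_div h.hu.1, ?_⟩
  have := h.fatou 2 6 (by norm_num) (fun n x => φ n x / ‖x‖) (fun x => u x / ‖x‖)
    (fun n => meas_div (h.smooth n).continuous.aestronglyMeasurable)
    (by filter_upwards [h.ae] with x hx using hx.div_const _) 0 aestronglyMeasurable_const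
    (fun n => by simpa using hardy (φ n) (h.c1 n) (h.comp n) (fun hh => h0 (h.supp n hh)))
  refine this.trans_lt ?_
  simp only [Pi.zero_apply, sub_zero]
  exact ENNReal.mul_lt_top (by norm_num) h.hG.eLpNorm_lt_top

lemma gradient_sub' {f g : E3 → ℝ} (hf : ContDiff ℝ 1 f) (hg : ContDiff ℝ 1 g) (x : E3) :
    gradient (fun y => f y - g y) x = gradient f x - gradient g x := by
  unfold gradient
  rw [← map_sub]
  congr 1
  exact fderiv_fun_sub (hf.differentiable one_ne_zero x) (hg.differentiable one_ne_zero x)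

lemma Approx.hardyLim (h : Approx Ω u G φ) (h0 : (0 : E3) ∉ Ω) (n : ℕ) :
    eLpNorm (fun x => (φ n x - u x) / ‖x‖) 2 volume ≤
      6 * eLpNorm (fun x => gradient (φ n) x - G x) 2 volume := by
  have := h.fatou 2 6 (by norm_num) (fun m x => (φ m x - φ n x) / ‖x‖)
    (fun x => (u x - φ n x) / ‖x‖)
    (fun m => meas_div (((h.smooth m).continuous.sub (h.smooth n).continuous).aestronglyMeasurable))
    (by filter_upwards [h.ae] with x hx using (hx.sub_const _).div_const _)
    (gradient (φ n)) (h.memG n).1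
    (fun m => by
      have h1 := hardy (fun x => φ m x - φ n x) ((h.c1 m).sub (h.c1 n))
        ((h.comp m).sub (h.comp n)) (fun hh => by
          have := tsupport_sub (φ m) (φ n) hh
          rcases this with h' | h'
          · exact h0 (h.supp m h')
          · exact h0 (h.supp n h'))
      have e1 : gradient (fun x => φ m x - φ n x) = fun x => gradient (φ m) x - gradient (φ n) x := by
        funext x
        exact gradient_sub' (h.c1 m) (h.c1 n) x
      rw [e1] at h1
      exact h1)
  have e1 : eLpNorm (fun x => (φ n x - u x) / ‖x‖) 2 volume =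
      eLpNorm (fun x => (u x - φ n x) / ‖x‖) 2 volume := by
    apply eLpNorm_congr_norm_ae
    refine Eventually.of_forall fun x => ?_
    simp only [norm_div]
    rw [norm_sub_rev]
  have e2 : eLpNorm (fun x => gradient (φ n) x - G x) 2 volume =
      eLpNorm (fun x => G x - gradient (φ n) x) 2 volume := by
    apply eLpNorm_congr_norm_ae
    refine Eventually.of_forall fun x => ?_
    rw [norm_sub_rev]
  rw [e1, e2]
  exact this

lemma Approx.dilLim (h : Approx Ω u G φ) {t : ℝ} (ht : 1 ≤ t) :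
    eLpNorm (fun x => (u (t • x) - u x) / ‖x‖) 2 volume ≤
      ENNReal.ofReal (t - 1) * eLpNorm G 2 volume := by
  have hae2 : ∀ᵐ x : E3, Tendsto (fun n => φ n (t • x)) atTop (𝓝 (u (t • x))) :=
    (qmp_dil (t := t) (by linarith)).ae h.ae
  have := h.fatou 2 (ENNReal.ofReal (t - 1)) ENNReal.ofReal_ne_top
    (fun n x => (φ n (t • x) - φ n x) / ‖x‖)
    (fun x => (u (t • x) - u x) / ‖x‖)
    (fun m => meas_div ((((h.smooth m).continuous.comp (by fun_prop)).sub
      (h.smooth m).continuous).aestronglyMeasurable))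
    (by filter_upwards [h.ae, hae2] with x hx hx2 using (hx2.sub hx).div_const _)
    0 aestronglyMeasurable_const
    (fun m => by simpa using eL_dil (φ m) (h.c1 m) ht)
  simpa using this

end Pool.Agent.U524.HS
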